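import Pool.Agent.H44.T1.Frm5

/-!
# T1, frame: existence of `t`
-/

set_option autoImplicit false

namespace Pool.T44

open Polynomial IntermediateField

section Ex

variable {F K : Type} [Field F] [Field K] [Algebra F K]

lemma trans_of_not {F K : Type} [Field F] [Finite F] [Field K] [Algebra F K]
    {v : ValuationSubring K} {r : K} (hr : r ∉ v) : Transcendental F r := by
  have : v.valuation.IsTrivialOn F := ⟨fun _ ha => val_cst (cst_all (F := F) v) ha⟩
  have h1 : 1 < v.valuation r := by
    rw [← ValuationSubring.valuation_le_one_iff] at hr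
    exact not_le.1 hr
  apply Valuation.transcendental_of_ne_one (v := v.valuation) F r
  · intro h0
    rw [h0] at hr
    exact hr (zero_mem v)
  · exact h1.ne'

theorem ex_t [Finite F] [Algebra.EssFiniteType F K] (htr : Algebra.trdeg F K = 1)
    (v : ValuationSubring K) (hv : v ≠ ⊤) :
    ∃ t : K, Transcendental F t ∧ t ∉ v ∧ (∀ w : ValuationSubring K, w ≠ v → t ∈ w) ∧
      FiniteDimensional F⟮t⟯ K ∧ Algebra.IsSeparable F⟮t⟯ K := by
  obtain ⟨s0, hs0, hsep0⟩ := exists_isTranscendenceBasis_and_isSeparable_of_perfectField F K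
  obtain ⟨x, rfl, hx⟩ := basis_one htr hs0
  have hfin0 := fin_of_basis hs0
  rw [Finset.coe_singleton] at hsep0 hfin0
  -- a function with a single pole
  obtain ⟨r, hr, hrw⟩ : ∃ r : K, r ∉ v ∧ ∀ w : ValuationSubring K, Cst F w → w ≠ v → r ∈ w := by
    rcases v.mem_or_inv_mem x with h | h
    · exact ex_r' x hx (cst_all v) h hv
    · have e : F⟮x⁻¹⟯ = F⟮x⟯ := by
        apply le_antisymm
        · rw [adjoin_simple_le_iff]
          exact inv_mem (mem_adjoin_simple_self F x)
        · rw [adjoin_simple_le_iff]
          have := inv_mem (mem_adjoin_simple_self F x⁻¹)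
          rwa [inv_inv] at this
      have hx' : Transcendental F x⁻¹ := by
        intro hc
        exact hx (IsAlgebraic.inv_iff.1 hc)
      rw [← e] at hsep0 hfin0
      exact ex_r' x⁻¹ hx' (cst_all v) h hv
  set T : Set K := {a | ∀ w : ValuationSubring K, w ≠ v → a ∈ w} with hT
  have hrT : r ∈ T := fun w hw => hrw w (cst_all w) hw
  have hrt : Transcendental F r := trans_of_not hr
  have hrb : IsTranscendenceBasis F ((↑) : ({r} : Finset K) → K) := by
    apply AlgebraicIndependent.isTranscendenceBasis_of_trdeg_le_of_finite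
    · have : Unique ({r} : Finset K) := ⟨⟨⟨r, by simp⟩⟩, fun y => by
        have := y.2
        rw [Finset.mem_singleton] at this
        exact Subtype.ext this⟩
      rw [algebraicIndependent_unique_type_iff]
      have e : ((default : ({r} : Finset K)) : K) = r := by
        have := (default : ({r} : Finset K)).2
        rwa [Finset.mem_singleton] at this
      rw [e]
      exact hrt
    · rw [htr, Cardinal.mk_coe_finset, Finset.card_singleton, Nat.cast_one]
  have hgen : adjoin F T = ⊤ := by
    rw [eq_top_iff]
    intro z _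
    have hal := hrb.isAlgebraic
    have h1 : IsAlgebraic (Algebra.adjoin F (Set.range ((↑) : ({r} : Finset K) → K))) z :=
      hal.isAlgebraic z
    obtain ⟨d, hd, h2⟩ := h1.exists_integral_multiple
    rw [Algebra.smul_def] at h2
    have hsub : ∀ w : ValuationSubring K, w ≠ v → ∀ y ∈ Algebra.adjoin F
        (Set.range ((↑) : ({r} : Finset K) → K)), y ∈ w := by
      intro w hw y hy
      induction hy using Algebra.adjoin_induction with
      | mem x hx =>
        obtain ⟨⟨a, ha⟩, rfl⟩ := hx
        rw [Finset.mem_singleton] at ha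
        subst ha
        exact hrT w hw
      | algebraMap a => exact cst_all w a
      | add x y _ _ hx hy => exact add_mem hx hy
      | mul x y _ _ hx hy => exact mul_mem hx hy
    have hdT : (d : K) ∈ T := fun w hw => hsub w hw d d.2
    have hzT : (d : K) * z ∈ T := by
      intro w hw
      obtain ⟨p, hp, h0⟩ := h2
      have h3 : IsIntegral w ((d : K) * z) := by
        refine ⟨p.map ((algebraMap (Algebra.adjoin F (Set.range ((↑) : ({r} : Finset K) → K))) K
          ).codRestrict w.toSubring (fun y => hsub w hw y y.2)), hp.map _, ?_⟩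
        rw [eval₂_map]
        exact h0
      obtain ⟨y, hy⟩ := IsIntegrallyClosed.isIntegral_iff.1 h3
      rw [← hy]
      exact y.2
    have hd0 : (d : K) ≠ 0 := by simpa using hd
    have h4 : z = (d : K) * z / d := by field_simp
    rw [h4]
    exact div_mem (subset_adjoin F T hzT) (subset_adjoin F T hdT)
  obtain ⟨p, hp⟩ := CharP.exists F
  have hpp : p.Prime := CharP.char_is_prime F p
  obtain ⟨s, hsT, hs, hsep⟩ := sep_sub p hpp T hgen
  obtain ⟨t, rfl, ht⟩ := basis_one htr hs
  have hfin := fin_of_basis hs
  rw [Finset.coe_singleton] at hsep hfin hsT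
  have htT : t ∈ T := hsT rfl
  refine ⟨t, ht, ?_, htT, hfin, hsep⟩
  intro htv
  apply ht
  apply alg_of_all
  intro w
  by_cases hw : w = v
  · rw [hw]; exact htv
  · exact htT w hw

end Ex

end Pool.T44
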