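import Pool.Agent.H44.T1.IDefs
import Pool.Agent.H44.T1.Frm6

/-!
# T1: the main theorem in intrinsic form
-/

set_option autoImplicit false

namespace Pool.T44

open Polynomial Pool.T1

/-- Every place of a function field in one variable over a finite field is the only pole of a
separating element. -/
theorem one_pole {F K : Type} [Field F] [Finite F] [Field K] [Algebra F K]
    [Algebra.EssFiniteType F K] (htr : Algebra.trdeg F K = 1)
    (v : ValuationSubring K) (hv : v ≠ ⊤) :
    ∃ (a : Algebra (RatFunc F) K), FiniteDimensional (RatFunc F) K ∧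
      Algebra.IsSeparable (RatFunc F) K ∧ OnePole F v ∧
      ∀ (m : ℕ) (z : K), Pole F v m z ↔ PoleV v m z := by
  obtain ⟨t, ht, htv, htw, hfin, hsep⟩ := ex_t (F := F) htr v hv
  refine ⟨algRat t ht, algRat_fin t ht, algRat_sep t ht, ?_, ?_⟩
  · letI := algRat t ht
    refine ⟨?_, ?_⟩
    · rw [algRat_X]; exact htv
    · intro O' hO'
      rw [algRat_X] at hO'
      by_contra hne
      exact hO' (htw O' hne)
  · letI := algRat t ht
    intro m z
    have key : ∀ w : ValuationSubring K, algebraMap (RatFunc F) K RatFunc.X ∈ w ↔ w ≠ v := by
      intro w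
      rw [algRat_X]
      constructor
      · intro h1 h2
        rw [h2] at h1
        exact htv h1
      · exact htw w
    unfold Pole PoleV
    simp only [key]

/-- INTR: the intrinsic form of the main theorem. -/
theorem intr (h : MainStmt) : IntrStmt := by
  intro F _ _ h2 K _ _ _ htr v hv g hg
  obtain ⟨a, hfin, hsep, hone, hpole⟩ := one_pole (F := F) htr v hv
  have hyp : ∀ h : ℕ, HypK F v g h = HypV v g h := by
    intro h
    unfold HypK HypV
    simp only [hpole]
  have := h F h2 K v hone g hg
  simp only [hyp] at this
  exact this

end Pool.T44
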