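import Pool.Agent.H14.T1.S3
import Pool.Agent.H6.HYP.SQI
import Pool.Agent.H9.HYP.SCAL
import Pool.Agent.H25.HYP.QSP
import Pool.Agent.H33.HYP.TWS

/-!
# T1: LSQ
-/

set_option autoImplicit false

namespace Pool.T1

open Polynomial Matrix Pool.HYP Pool.TOW Pool.AVS

namespace LSQ44

lemma coprime_scale {K : Type} [Field K] (f α : K[X]) (d : K) (hd : d ≠ 0) :
    IsCoprime (α.comp (C d * X)) f ↔ IsCoprime α (f.scaleRoots d) := by
  have hu : IsUnit (C (d ^ f.natDegree) : K[X]) :=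
    isUnit_C.2 (isUnit_iff_ne_zero.2 (pow_ne_zero _ hd))
  constructor
  · intro h
    have h1 : IsCoprime (α.comp (C d * X)) (C (d ^ f.natDegree) * f) :=
      (isCoprime_mul_unit_left_right hu _ _).2 h
    have h2 := h1.map (H33.scE d hd).symm.toRingEquiv.toRingHom
    have e1 : (H33.scE d hd).symm.toRingEquiv.toRingHom (α.comp (C d * X)) = α :=
      (H33.scE d hd).symm_apply_apply α
    have e2 : (H33.scE d hd).symm.toRingEquiv.toRingHom (C (d ^ f.natDegree) * f) =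
        f.scaleRoots d := by
      rw [← H33.comp_scale]
      exact (H33.scE d hd).symm_apply_apply _
    rw [e1, e2] at h2
    exact h2
  · intro h
    have h1 := h.map (H33.scE d hd).toRingEquiv.toRingHom
    have h2 : IsCoprime (α.comp (C d * X)) ((f.scaleRoots d).comp (C d * X)) := h1
    rw [H33.comp_scale] at h2
    exact h2.of_mul_right_right

lemma comp_inv {K : Type} [Field K] (α : K[X]) (d : K) (hd : d ≠ 0) :
    (α.comp (C d⁻¹ * X)).comp (C d * X) = α := by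
  rw [comp_assoc]
  have : (C d⁻¹ * X : K[X]).comp (C d * X) = X := by
    rw [mul_comp, C_comp, X_comp, ← mul_assoc, ← C_mul, inv_mul_cancel₀ hd, C_1, one_mul]
  rw [this, comp_X]

/-- A factor which makes small powers of `d` integral. -/
lemma ex_c {K : Type} [Field K] (V : ValuationSubring K) (d : K) (hd : d ≠ 0) (n : ℕ) :
    ∃ c : K, c ≠ 0 ∧ ∀ m : ℤ, -(n : ℤ) ≤ m → m ≤ n → c * d ^ m ∈ V := by
  rcases V.mem_or_inv_mem d with h | h
  · refine ⟨d ^ n, pow_ne_zero _ hd, fun m h1 h2 => ?_⟩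
    have e : d ^ n * d ^ m = d ^ (n + m).toNat := by
      rw [← zpow_natCast, ← zpow_add₀ hd, ← zpow_natCast]
      congr 1
      omega
    rw [e]
    exact pow_mem h _
  · refine ⟨d⁻¹ ^ n, pow_ne_zero _ (inv_ne_zero hd), fun m h1 h2 => ?_⟩
    have e : d⁻¹ ^ n * d ^ m = d⁻¹ ^ (n - m).toNat := by
      rw [← zpow_natCast, ← zpow_natCast, _root_.inv_zpow', _root_.inv_zpow', ← zpow_add₀ hd]
      congr 1
      omega
    rw [e]
    exact pow_mem h _

end LSQ44

open LSQ44 in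
/-- **LSQ.** -/
theorem lsq (hL : LSAStmt) : LSQStmt := by
  intro K _ V π h2 h2' hu har hfin n f d f₀ α hf hn hodd hd hfd hirr hcop hN
  intro a ha
  set β : K[X] := α.comp (C d⁻¹ * X) with hβ
  have hαβ : α = β.comp (C d * X) := (comp_inv α d hd).symm
  have hfm : (f.scaleRoots d).Monic := (monic_scaleRoots_iff d).mpr hf
  have hf₀ : f₀.Monic := by
    have h : (oL V f₀).Monic := by rw [← hfd]; exact hfm
    exact monic_of_injective (f := algebraMap V K) Subtype.val_injective h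
  have hdeg : f₀.natDegree = n := by
    have h : (oL V f₀).natDegree = n := by rw [← hfd, natDegree_scaleRoots, hn]
    rwa [hf₀.natDegree_map] at h
  have hcopβ : IsCoprime β (oL V f₀) := by
    rw [← hfd, ← coprime_scale f β d hd, ← hαβ]
    exact hcop
  have hNβ : NSq (oL V f₀) β := by
    unfold NSq at hN ⊢
    rw [← hfd, ← H33.norm_scale f β d hd, ← hαβ]
    exact hN
  obtain ⟨c, hc0, hc⟩ := ex_c V d hd (2 * n)
  obtain ⟨s, p, hs, hdiv⟩ := hL K V π h2 h2' hu har hfin f₀ β hf₀ (by rw [hdeg]; exact hodd)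
    hirr hcopβ hNβ (a * c) (mul_ne_zero ha hc0)
  rw [← hfd] at hs hdiv
  have hs' : IsCoprime (s.comp (C d * X)) f := (coprime_scale f s d hd).2 hs
  have hdiv' := (H33.dvd_scale f _ d hd).2 hdiv
  have e1 : (β * s ^ 2 - 1 - C (a * c) * oL V p).comp (C d * X) =
      α * (s.comp (C d * X)) ^ 2 - 1 - C (a * c) * (oL V p).comp (C d * X) := by
    rw [sub_comp, sub_comp, mul_comp, mul_comp, pow_comp, C_comp, one_comp, ← hαβ]
  rw [e1] at hdiv'
  obtain ⟨k, hk, hk0, -⟩ := sqi K n f α (1 + C (a * c) * (oL V p).comp (C d * X))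
    (s.comp (C d * X)) hf hn hs' (by
      obtain ⟨r, hr⟩ := hdiv'
      exact ⟨-r, by linear_combination -hr⟩)
  refine ⟨k, hk, fun i j => ?_⟩
  rw [← hk0]
  have e2 : gr 0 n f (1 + C (a * c) * (oL V p).comp (C d * X)) i j =
      gr 0 n f 1 i j + (a * c) * gr 0 n f ((oL V p).comp (C d * X)) i j := by
    have h3 := congrFun (congrFun (H25QSP.gr_C (f := f) n (a * c) ((oL V p).comp (C d * X))) i) j
    rw [Matrix.smul_apply, smul_eq_mul] at h3
    rw [← h3]
    change tau f (X ^ ((i : ℕ) + (j : ℕ) + 0) * (1 + C (a * c) * (oL V p).comp (C d * X))) =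
      tau f (X ^ ((i : ℕ) + (j : ℕ) + 0) * 1) +
      tau f (X ^ ((i : ℕ) + (j : ℕ) + 0) * (C (a * c) * (oL V p).comp (C d * X)))
    unfold tau
    rw [mul_add, add_modByMonic, coeff_add]
  rw [Matrix.sub_apply, e2]
  have e3 := Scal9.gr_comp n f (oL V p) hd hf i j
  have hg : gr 0 n (f.scaleRoots d) (oL V p) i j ∈ V := by
    change tau (f.scaleRoots d) (X ^ ((i : ℕ) + (j : ℕ) + 0) * oL V p) ∈ V
    rw [hfd]
    have e4 : (X ^ ((i : ℕ) + (j : ℕ) + 0) * oL V p : K[X]) =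
        oL V (X ^ ((i : ℕ) + (j : ℕ) + 0) * p) := by
      rw [oL, oL, Polynomial.map_mul, Polynomial.map_pow, map_X]
    rw [e4, H25QSP.tau_oL V hf₀]
    exact Subtype.prop _
  have hi := i.2
  have hj := j.2
  have e5 : gr 0 n f ((oL V p).comp (C d * X)) i j =
      d ^ ((n : ℤ) - 1 - (i : ℕ) - (j : ℕ)) * gr 0 n (f.scaleRoots d) (oL V p) i j := by
    have hdi : d ^ (i : ℕ) ≠ 0 := pow_ne_zero _ hd
    have hdj : d ^ (j : ℕ) ≠ 0 := pow_ne_zero _ hd
    have e6 : d ^ ((n : ℤ) - 1 - (i : ℕ) - (j : ℕ)) =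
        d ^ (f.natDegree - 1) * (d ^ (i : ℕ))⁻¹ * (d ^ (j : ℕ))⁻¹ := by
      rw [← zpow_natCast, ← zpow_natCast, ← zpow_natCast, ← _root_.zpow_neg, ← _root_.zpow_neg,
        ← zpow_add₀ hd, ← zpow_add₀ hd, hn]
      congr 1
      omega
    rw [e6]
    field_simp
    linear_combination e3
  have e7 : (gr 0 n f 1 i j + (a * c) * gr 0 n f ((oL V p).comp (C d * X)) i j -
      gr 0 n f 1 i j) / a = (c * d ^ ((n : ℤ) - 1 - (i : ℕ) - (j : ℕ))) *
        gr 0 n (f.scaleRoots d) (oL V p) i j := by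
    rw [e5]
    field_simp
    ring
  rw [e7]
  exact mul_mem (hc _ (by omega) (by omega)) hg

end Pool.T1
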