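import Pool.Agent.H29.T1.EDefs
import Pool.Agent.H29.T1.S8
import Pool.Agent.H29.T1.Conc
import Pool.Agent.H58.T1.S1
import Pool.Agent.H44.T1.INTR

/-!
# T1: elliptic curves over global function fields of odd characteristic
-/

set_option autoImplicit false

namespace Pool.T1

open Polynomial Pool.T44

/-- EFIN. -/
theorem efin (hGRI : GRIStmt) (hGRA : GRAStmt) (hGRD : GRDStmt) (hDIV : DIVKStmt)
    (hFIN : FINKStmt) : EFINStmt := by
  intro F _ _ h2 K _ _ _ htr v hv f hm hdeg hsep hirr hsel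
  have h2K : (2 : K) ≠ 0 := by
    intro h
    apply h2
    apply (algebraMap F K).injective
    rw [map_ofNat, map_zero]
    exact h
  have hf : f = X ^ 3 + C (f.coeff 2) * X ^ 2 + C (f.coeff 1) * X + C (f.coeff 0) := by
    have h3 : f.coeff 3 = 1 := by
      have := hm.coeff_natDegree
      rwa [hdeg] at this
    conv_lhs => rw [f.as_sum_range_C_mul_X_pow, hdeg]
    simp only [Finset.sum_range_succ, Finset.sum_range_zero, h3, map_one, pow_zero, pow_one]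
    ring
  have hset : {p : K × K | p.2 ^ 2 = f.eval p.1} =
      {p : K × K | p.2 ^ 2 = p.1 ^ 3 + f.coeff 2 * p.1 ^ 2 + f.coeff 1 * p.1 + f.coeff 0} := by
    ext p
    simp only [Set.mem_setOf_eq]
    conv_lhs => rw [hf]
    simp
  rw [hset]
  obtain ⟨a, hfin, hseps, hone, -⟩ := one_pole (F := F) htr v hv
  obtain ⟨⟨π, hπ⟩, hG⟩ := hGRI F h2 K v hone
  obtain ⟨hGR, -⟩ := hG π hπ
  have hA := hGRA (RR F K) K v π hGR
  rw [hf] at hsep hirr hsel
  refine hFIN (RR F K) K v π hGR (fun m => (hA.2.1 m).1) ?_ _ _ _ hsep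
    (hDIV K h2K _ _ _ hirr hsel)
  intro r hr
  obtain ⟨n, h1, h2, h3, -⟩ := hGRD (RR F K) K v π hGR r hr
  exact ⟨n, h3, h1, h2⟩

/-- ELLF. -/
theorem ellf (hI : IntrStmt) (hE : EFINStmt) : ELLFStmt := by
  intro F _ _ h2 K _ _ _ htr v hv
  obtain ⟨δ, hδ, h0, hh⟩ := hI F h2 K htr v hv 1 le_rfl
  refine ⟨δ, hδ, h0, fun h hle => ?_⟩
  obtain ⟨hfin, hpos, hmain, hzer⟩ := hh h hle
  refine ⟨hfin, hpos, ?_, ?_⟩
  · refine hmain.trans ?_
    norm_cast
    apply Set.ncard_le_ncard _ (hfin.subset (Set.sep_subset _ _))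
    rintro f ⟨hf, hs, hi⟩
    exact ⟨hf, hs, hE F h2 K htr v hv f hf.1 hf.2.1 hf.2.2.2 hi hs⟩
  · intro h3
    obtain ⟨hp, hz⟩ := hzer (by simpa using h3)
    refine ⟨hp, hz.trans ?_⟩
    norm_cast
    apply Set.ncard_le_ncard _ (hfin.subset (Set.sep_subset _ _))
    rintro f ⟨hf, h0, hs, hi⟩
    exact ⟨hf, h0, hs, hE F h2 K htr v hv f hf.1 hf.2.1 hf.2.2.2 hi hs⟩

end Pool.T1
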