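import Pool.Agent.H29.T1.Defs

/-!
# T1: the main theorem in intrinsic form

`F` is a finite field of odd order, `K` a field which is finitely generated and of transcendence
degree one over `F`, and `v` a valuation ring of `K` different from `K`: a place of `K`.
-/

set_option autoImplicit false

namespace Pool.T44

open Polynomial Pool.T1

section Family

variable {K : Type} [Field K]

/-- The element `a` of `K` is regular outside the place `v` and has there a pole of order at most
`m`. -/
def PoleV (v : ValuationSubring K) (m : ℕ) (a : K) : Prop :=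
  (∀ w : ValuationSubring K, w ≠ v → a ∈ w) ∧ ∀ π : K, π ∈ v → π⁻¹ ∉ v → a * π ^ m ∈ v

/-- The separable monic polynomials `x^(2g+1) + a_1 x^(2g) + ... + a_(2g+1)` over `K` such that `a_i`
is regular outside the place `v` and has there a pole of order at most `i h`. -/
def HypV (v : ValuationSubring K) (g h : ℕ) : Set K[X] :=
  {f | f.Monic ∧ f.natDegree = 2 * g + 1 ∧
    (∀ i ≤ 2 * g + 1, PoleV v (i * h) (f.coeff (2 * g + 1 - i))) ∧ f.Separable}

end Family

/-- The main theorem, intrinsic form. -/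
def IntrStmt : Prop :=
  ∀ (F : Type) [Field F] [Finite F], (2 : F) ≠ 0 → ∀ (K : Type) [Field K] [Algebra F K]
    [Algebra.EssFiniteType F K], Algebra.trdeg F K = 1 →
    ∀ v : ValuationSubring K, v ≠ ⊤ → ∀ g : ℕ, 1 ≤ g →
    ∃ δ : ℝ, 0 < δ ∧ ∃ h0 : ℕ, ∀ h : ℕ, h0 ≤ h →
      (HypV v g h).Finite ∧ 0 < (HypV v g h).ncard ∧
      δ * (HypV v g h).ncard ≤ {f ∈ HypV v g h | SelK f ∧ Irreducible f}.ncard ∧
      (((2 * g + 1 : ℕ) : F) ≠ 0 →
        0 < {f ∈ HypV v g h | f.coeff (2 * g) = 0}.ncard ∧
        δ * {f ∈ HypV v g h | f.coeff (2 * g) = 0}.ncard ≤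
          {f ∈ HypV v g h | f.coeff (2 * g) = 0 ∧ SelK f ∧ Irreducible f}.ncard)

end Pool.T44
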