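import Mathlib

/-!
# T1, frame: functions with one pole on a curve
-/

set_option autoImplicit false

namespace Pool.T44

open Polynomial

section Basic

variable {F K : Type} [Field F] [Field K] [Algebra F K] [Algebra F[X] K] [Algebra (RatFunc F) K]
  [IsScalarTower F F[X] K] [IsScalarTower F[X] (RatFunc F) K]

/-- The valuation ring contains the constants. -/
def Cst (F : Type) [Field F] {K : Type} [Field K] [Algebra F K] (w : ValuationSubring K) : Prop :=
  ∀ a : F, algebraMap F K a ∈ w

omit [Algebra F[X] K] [Algebra (RatFunc F) K] [IsScalarTower F F[X] K]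
  [IsScalarTower F[X] (RatFunc F) K] in
lemma val_cst {w : ValuationSubring K} (hw : Cst F w) {a : F} (ha : a ≠ 0) :
    w.valuation (algebraMap F K a) = 1 := by
  have h1 := hw a
  have h2 := hw a⁻¹
  rw [← ValuationSubring.valuation_le_one_iff] at h1 h2
  have h3 : algebraMap F K a * algebraMap F K a⁻¹ = 1 := by
    rw [← map_mul, mul_inv_cancel₀ ha, map_one]
  have h4 : w.valuation (algebraMap F K a) * w.valuation (algebraMap F K a⁻¹) = 1 := by
    rw [← map_mul, h3, map_one]
  apply le_antisymm h1
  by_contra hc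
  push Not at hc
  have h5 : w.valuation (algebraMap F K a) * w.valuation (algebraMap F K a⁻¹) < 1 :=
    mul_lt_one_of_lt_of_le hc h2
  rw [h4] at h5
  exact lt_irrefl _ h5

omit [Algebra (RatFunc F) K] [IsScalarTower F[X] (RatFunc F) K] in
lemma cst_pol (a : F) : algebraMap F[X] K (C a) = algebraMap F K a := by
  rw [← Polynomial.algebraMap_eq, ← IsScalarTower.algebraMap_apply]

lemma cst_rat (a : F) : algebraMap (RatFunc F) K (RatFunc.C a) = algebraMap F K a := by
  rw [← RatFunc.algebraMap_C, ← IsScalarTower.algebraMap_apply, cst_pol]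

omit [Algebra F K] [IsScalarTower F F[X] K] in
lemma X_rat : algebraMap (RatFunc F) K RatFunc.X = algebraMap F[X] K X := by
  rw [← RatFunc.algebraMap_X, ← IsScalarTower.algebraMap_apply]

lemma val_rat {w : ValuationSubring K} (hw : Cst F w) (hX : algebraMap F[X] K X ∉ w)
    {f : RatFunc F} (hf : f ≠ 0) :
    w.valuation (algebraMap (RatFunc F) K f) =
      w.valuation (algebraMap F[X] K X) ^ f.intDegree := by
  set u : Valuation (RatFunc F) w.ValueGroup := w.valuation.comap (algebraMap (RatFunc F) K) with hu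
  have : u.IsTrivialOn F := by
    refine ⟨fun a ha => ?_⟩
    rw [hu, Valuation.comap_apply, RatFunc.algebraMap_eq_C, cst_rat]
    exact val_cst hw ha
  have h1 : 1 < u RatFunc.X := by
    rw [hu, Valuation.comap_apply, X_rat]
    rw [← ValuationSubring.valuation_le_one_iff] at hX
    exact not_le.1 hX
  have h2 := RatFunc.valuation_eq_valuation_X_zpow_intDegree_of_one_lt_valuation_X h1 hf
  rw [hu, Valuation.comap_apply, Valuation.comap_apply, X_rat] at h2
  exact h2

/-- `f` has degree at most `m` (an integer). -/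
def Dg (f : RatFunc F) (m : ℤ) : Prop := f = 0 ∨ f.intDegree ≤ m

lemma dg_div {p b : F[X]} (hb : b ≠ 0) {m : ℤ} (h : p = 0 ∨ (p.natDegree : ℤ) - b.natDegree ≤ m) :
    Dg (algebraMap F[X] (RatFunc F) p / algebraMap F[X] (RatFunc F) b) m := by
  rcases h with h | h
  · left; rw [h]; simp
  · by_cases hp : p = 0
    · left; rw [hp]; simp
    right
    have hp' : algebraMap F[X] (RatFunc F) p ≠ 0 := by simpa using hp
    have hb' : algebraMap F[X] (RatFunc F) b ≠ 0 := by simpa using hb
    rw [RatFunc.intDegree_div hp' hb', RatFunc.intDegree_polynomial, RatFunc.intDegree_polynomial]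
    exact h

lemma rat_dec (f : RatFunc F) : ∃ (p : F[X]) (g : RatFunc F),
    f = algebraMap F[X] (RatFunc F) p + g ∧ Dg g (-1) := by
  refine ⟨f.num / f.denom, algebraMap F[X] (RatFunc F) (f.num % f.denom) /
    algebraMap F[X] (RatFunc F) f.denom, ?_, ?_⟩
  · have h1 : algebraMap F[X] (RatFunc F) f.denom ≠ 0 := by
      simpa using RatFunc.denom_ne_zero f
    have h2 : f * algebraMap F[X] (RatFunc F) f.denom = algebraMap F[X] (RatFunc F) f.num := by
      have h6 := RatFunc.num_div_denom f
      rw [div_eq_iff h1] at h6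
      exact h6.symm
    have h3 : algebraMap F[X] (RatFunc F) f.num =
        algebraMap F[X] (RatFunc F) (f.denom * (f.num / f.denom) + f.num % f.denom) := by
      rw [EuclideanDomain.div_add_mod]
    field_simp
    rw [h2, h3, map_add, map_mul]
    ring
  · apply dg_div (RatFunc.denom_ne_zero f)
    by_cases h0 : f.num % f.denom = 0
    · left; exact h0
    right
    have := Polynomial.natDegree_mod_lt f.num (q := f.denom) ?_
    · omega
    · intro hc
      apply h0
      have h5 : f.denom = 1 := (RatFunc.monic_denom f).natDegree_eq_zero.1 hc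
      rw [h5, EuclideanDomain.mod_one]

lemma rat_dec2 (c : ℕ) (f : RatFunc F) : ∃ (p q : F[X]) (g : RatFunc F),
    f = algebraMap F[X] (RatFunc F) p +
      (RatFunc.X ^ c)⁻¹ * (algebraMap F[X] (RatFunc F) q + g) ∧ q ∈ degreeLT F c ∧ Dg g (-1) := by
  obtain ⟨P, g, h1, h2⟩ := rat_dec (RatFunc.X ^ c * f)
  have hm : (X ^ c : F[X]).Monic := monic_X_pow c
  refine ⟨P /ₘ X ^ c, P %ₘ X ^ c, g, ?_, ?_, h2⟩
  · have h3 : (RatFunc.X ^ c : RatFunc F) ≠ 0 := pow_ne_zero _ RatFunc.X_ne_zero
    have h4 : algebraMap F[X] (RatFunc F) P = algebraMap F[X] (RatFunc F) (P %ₘ X ^ c) +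
        RatFunc.X ^ c * algebraMap F[X] (RatFunc F) (P /ₘ X ^ c) := by
      conv_lhs => rw [← modByMonic_add_div P (X ^ c)]
      rw [map_add, map_mul, map_pow, RatFunc.algebraMap_X]
    rw [h4] at h1
    have h5 : f = (RatFunc.X ^ c)⁻¹ * (RatFunc.X ^ c * f) := by
      rw [← mul_assoc, inv_mul_cancel₀ h3, one_mul]
    rw [h5, h1]
    field_simp
    ring
  · rw [mem_degreeLT]
    have := degree_modByMonic_lt P hm
    rwa [degree_X_pow] at this

end Basic

section Spaces

variable (F K : Type) [Field F] [Field K] [Algebra F K] [Algebra F[X] K] [Algebra (RatFunc F) K]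
  [IsScalarTower F F[X] K] [IsScalarTower F[X] (RatFunc F) K]

omit [Algebra F[X] K] in
lemma smul_mem {F K : Type} [Field F] [Field K] [Algebra F K] {w : ValuationSubring K}
    (hw : Cst F w) (a : F) {z : K} (hz : z ∈ w) : a • z ∈ w := by
  rw [Algebra.smul_def]
  exact mul_mem (hw a) hz

/-- The elements which are regular at all finite places. -/
def Sf : Submodule F K where
  carrier := {z | ∀ w : ValuationSubring K, Cst F w → algebraMap F[X] K X ∈ w → z ∈ w}
  add_mem' := fun ha hb w h1 h2 => add_mem (ha w h1 h2) (hb w h1 h2)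
  zero_mem' := fun w _ _ => zero_mem w
  smul_mem' := fun a _ hz w h1 h2 => smul_mem h1 a (hz w h1 h2)

/-- The elements which are regular at all infinite places. -/
def Mi : Submodule F K where
  carrier := {z | ∀ w : ValuationSubring K, Cst F w → algebraMap F[X] K X ∉ w → z ∈ w}
  add_mem' := fun ha hb w h1 h2 => add_mem (ha w h1 h2) (hb w h1 h2)
  zero_mem' := fun w _ _ => zero_mem w
  smul_mem' := fun a _ hz w h1 h2 => smul_mem h1 a (hz w h1 h2)

variable {F K}

lemma pol_mem {w : ValuationSubring K} (hw : Cst F w) (hX : algebraMap F[X] K X ∈ w) (p : F[X]) :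
    algebraMap F[X] K p ∈ w := by
  induction p using Polynomial.induction_on' with
  | add p q hp hq => rw [map_add]; exact add_mem hp hq
  | monomial n a =>
    rw [← C_mul_X_pow_eq_monomial, map_mul, map_pow, cst_pol]
    exact mul_mem (hw a) (pow_mem hX n)

lemma int_mem {w : ValuationSubring K} (hw : Cst F w) (hX : algebraMap F[X] K X ∈ w) {z : K}
    (hz : IsIntegral F[X] z) : z ∈ w := by
  obtain ⟨p, hp, h0⟩ := hz
  have h1 : IsIntegral w z := by
    refine ⟨p.map ((algebraMap F[X] K).codRestrict w.toSubring (pol_mem hw hX)), hp.map _, ?_⟩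
    rw [eval₂_map]
    exact h0
  obtain ⟨y, hy⟩ := IsIntegrallyClosed.isIntegral_iff.1 h1
  rw [← hy]
  exact y.2

lemma bound_inf {z : K} (hz : IsIntegral (RatFunc F) z) : ∃ c : ℕ, ∀ w : ValuationSubring K,
    Cst F w → algebraMap F[X] K X ∉ w → w.valuation z ≤ w.valuation (algebraMap F[X] K X) ^ c := by
  obtain ⟨p, hp, h0⟩ := hz
  refine ⟨∑ i ∈ Finset.range p.natDegree, (p.coeff i).intDegree.toNat, fun w hw hX => ?_⟩
  set c := ∑ i ∈ Finset.range p.natDegree, (p.coeff i).intDegree.toNat with hc
  by_contra hcon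
  push Not at hcon
  set γ := w.valuation (algebraMap F[X] K X) with hγ
  have h1 : 1 < γ := by
    rw [← ValuationSubring.valuation_le_one_iff] at hX
    exact not_le.1 hX
  have h2 : 1 < w.valuation z := lt_of_le_of_lt (one_le_pow₀ h1.le) hcon
  have h2' : (0 : w.ValueGroup) < w.valuation z := lt_trans zero_lt_one h2
  rw [eval₂_eq_sum_range, Finset.sum_range_succ, hp.coeff_natDegree, map_one, one_mul] at h0
  have h3 : z ^ p.natDegree =
      -∑ x ∈ Finset.range p.natDegree, (algebraMap (RatFunc F) K) (p.coeff x) * z ^ x :=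
    eq_neg_of_add_eq_zero_right h0
  have h4 : w.valuation (-∑ x ∈ Finset.range p.natDegree,
      (algebraMap (RatFunc F) K) (p.coeff x) * z ^ x) < w.valuation (z ^ p.natDegree) := by
    rw [Valuation.map_neg]
    apply Valuation.map_sum_lt
    · rw [map_pow]
      exact (pow_pos h2' _).ne'
    · intro i hi
      rw [map_mul, map_pow, map_pow]
      by_cases h5 : p.coeff i = 0
      · rw [h5, map_zero, map_zero, zero_mul]
        exact pow_pos h2' _
      rw [val_rat hw hX h5]
      have h6 : γ ^ (p.coeff i).intDegree ≤ γ ^ c := by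
        rw [← zpow_natCast]
        apply zpow_le_zpow_right₀ h1.le
        have h7 : (p.coeff i).intDegree.toNat ≤ c := by
          rw [hc]
          exact Finset.single_le_sum (f := fun i => (p.coeff i).intDegree.toNat)
            (fun _ _ => Nat.zero_le _) hi
        omega
      have hi' : i < p.natDegree := Finset.mem_range.1 hi
      calc γ ^ (p.coeff i).intDegree * w.valuation z ^ i
          ≤ γ ^ c * w.valuation z ^ i := by gcongr
        _ < w.valuation z * w.valuation z ^ i := by
            apply mul_lt_mul_of_pos_right hcon (pow_pos h2' _)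
        _ = w.valuation z ^ (i + 1) := by rw [pow_succ, mul_comm]
        _ ≤ w.valuation z ^ p.natDegree := pow_le_pow_right₀ h2.le hi'
  rw [← h3] at h4
  exact lt_irrefl _ h4

end Spaces

end Pool.T44
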