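import Pool.Agent.H44.T1.Frm1

/-!
# T1, frame: finiteness of `K / (S + M)`
-/

set_option autoImplicit false

namespace Pool.T44

open Polynomial

section Fin

variable {F K : Type} [Field F] [Field K] [Algebra F K] [Algebra F[X] K] [Algebra (RatFunc F) K]
  [IsScalarTower F F[X] K] [IsScalarTower F[X] (RatFunc F) K]

lemma int_Sf {z : K} (hz : IsIntegral F[X] z) : z ∈ Sf F K := fun _ h1 h2 => int_mem h1 h2 hz

lemma pol_Sf (p : F[X]) {z : K} (hz : z ∈ Sf F K) : algebraMap F[X] K p * z ∈ Sf F K :=
  fun w h1 h2 => mul_mem (pol_mem h1 h2 p) (hz w h1 h2)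

lemma cov (hfin : FiniteDimensional (RatFunc F) K) :
    ∃ E : Submodule F K, FiniteDimensional F E ∧ Sf F K ⊔ Mi F K ⊔ E = ⊤ := by
  classical
  set b := Module.finBasis (RatFunc F) K with hb
  set n := Module.finrank (RatFunc F) K with hn
  have h1 : ∀ i : Fin n, ∃ d : F[X], d ≠ 0 ∧ IsIntegral F[X] (algebraMap F[X] K d * b i) := by
    intro i
    have h2 : IsAlgebraic (RatFunc F) (b i) := Algebra.IsAlgebraic.isAlgebraic (b i)
    have h3 : IsAlgebraic F[X] (b i) := (IsFractionRing.isAlgebraic_iff F[X] (RatFunc F) K).2 h2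
    obtain ⟨d, hd, h4⟩ := h3.exists_integral_multiple
    refine ⟨d, hd, ?_⟩
    rwa [Algebra.smul_def] at h4
  choose d hd hint using h1
  have h5 : ∀ i : Fin n, ∃ c : ℕ, ∀ w : ValuationSubring K, Cst F w → algebraMap F[X] K X ∉ w →
      w.valuation (algebraMap F[X] K (d i) * b i) ≤ w.valuation (algebraMap F[X] K X) ^ c :=
    fun i => bound_inf (Algebra.IsIntegral.isIntegral _)
  choose c hc using h5
  set C0 := ∑ i, c i with hC0
  set y : K := algebraMap F[X] K X with hy
  set bb : Fin n → K := fun i => algebraMap F[X] K (d i) * b i with hbb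
  set E : Submodule F K := Submodule.span F (Set.range fun t : Fin n × Fin C0 =>
    (y ^ C0)⁻¹ * y ^ (t.2 : ℕ) * bb t.1) with hE
  refine ⟨E, FiniteDimensional.span_of_finite F (Set.finite_range _), ?_⟩
  rw [eq_top_iff]
  intro z _
  have hz : z = ∑ i, algebraMap (RatFunc F) K (b.repr z i / algebraMap F[X] (RatFunc F) (d i)) *
      bb i := by
    conv_lhs => rw [← b.sum_repr z]
    apply Finset.sum_congr rfl
    intro i _
    have hdi : algebraMap F[X] (RatFunc F) (d i) ≠ 0 := by simpa using hd i
    have hdK : algebraMap F[X] K (d i) = algebraMap (RatFunc F) K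
      (algebraMap F[X] (RatFunc F) (d i)) := IsScalarTower.algebraMap_apply _ _ _ _
    rw [hbb, Algebra.smul_def]
    dsimp only
    rw [hdK, ← mul_assoc, ← map_mul, div_mul_cancel₀ _ hdi]
  rw [hz]
  apply Submodule.sum_mem
  intro i _
  obtain ⟨p, q, g, h6, h7, h8⟩ := rat_dec2 C0 (b.repr z i / algebraMap F[X] (RatFunc F) (d i))
  have hinv : algebraMap (RatFunc F) K ((RatFunc.X ^ C0)⁻¹) = (y ^ C0)⁻¹ := by
    rw [map_inv₀, map_pow, X_rat]
  rw [h6, map_add, map_mul, map_add, ← IsScalarTower.algebraMap_apply,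
    ← IsScalarTower.algebraMap_apply, hinv]
  have h9 : (algebraMap F[X] K p + (y ^ C0)⁻¹ * (algebraMap F[X] K q +
      algebraMap (RatFunc F) K g)) * bb i = algebraMap F[X] K p * bb i +
      (y ^ C0)⁻¹ * algebraMap (RatFunc F) K g * bb i +
      (y ^ C0)⁻¹ * algebraMap F[X] K q * bb i := by ring
  rw [h9]
  apply Submodule.add_mem_sup
  · apply Submodule.add_mem_sup
    · exact pol_Sf p (int_Sf (hint i))
    · intro w hw hX
      rw [← ValuationSubring.valuation_le_one_iff]
      rcases h8 with h8 | h8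
      · rw [h8]; simp
      by_cases hg : g = 0
      · rw [hg]; simp
      have hX' : 1 < w.valuation y := by
        rw [← ValuationSubring.valuation_le_one_iff] at hX
        exact not_le.1 hX
      have h0' : (0 : w.ValueGroup) < w.valuation y := lt_trans zero_lt_one hX'
      rw [map_mul, map_mul, map_inv₀, map_pow, val_rat hw hX hg]
      have e1 : w.valuation y ^ g.intDegree ≤ 1 := by
        rw [← zpow_zero (w.valuation y)]
        apply zpow_le_zpow_right₀ hX'.le
        omega
      have e2 : w.valuation (bb i) ≤ w.valuation y ^ C0 := by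
        apply (hc i w hw hX).trans
        apply pow_le_pow_right₀ hX'.le
        rw [hC0]
        exact Finset.single_le_sum (f := c) (fun _ _ => Nat.zero_le _) (Finset.mem_univ i)
      have e3 : (w.valuation y ^ C0)⁻¹ * w.valuation (bb i) ≤ 1 := by
        rw [inv_mul_le_iff₀ (pow_pos h0' _), mul_one]
        exact e2
      calc (w.valuation y ^ C0)⁻¹ * w.valuation y ^ g.intDegree * w.valuation (bb i)
          = w.valuation y ^ g.intDegree * ((w.valuation y ^ C0)⁻¹ * w.valuation (bb i)) := by
            rw [mul_comm (w.valuation y ^ C0)⁻¹ (w.valuation y ^ g.intDegree), mul_assoc]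
        _ ≤ 1 * 1 := mul_le_mul' e1 e3
        _ = 1 := one_mul 1
  · have h10 : algebraMap F[X] K q = ∑ j : Fin C0, algebraMap F K (q.coeff j) * y ^ (j : ℕ) := by
      have hq : q = ∑ j : Fin C0, C (q.coeff j) * X ^ (j : ℕ) := by
        rw [Fin.sum_univ_eq_sum_range (fun j => C (q.coeff j) * X ^ j) C0]
        ext k
        rw [finset_sum_coeff]
        simp only [coeff_C_mul, coeff_X_pow, mul_ite, mul_one, mul_zero]
        rw [Finset.sum_ite_eq]
        split_ifs with hk
        · rfl
        · rw [Finset.mem_range, not_lt] at hk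
          rw [mem_degreeLT] at h7
          exact coeff_eq_zero_of_degree_lt (lt_of_lt_of_le h7 (by exact_mod_cast hk))
      conv_lhs => rw [hq]
      rw [map_sum]
      apply Finset.sum_congr rfl
      intro j _
      rw [map_mul, map_pow, cst_pol]
    rw [h10, Finset.mul_sum, Finset.sum_mul]
    apply Submodule.sum_mem
    intro j _
    have h11 : (y ^ C0)⁻¹ * (algebraMap F K (q.coeff j) * y ^ (j : ℕ)) * bb i =
        (q.coeff j) • ((y ^ C0)⁻¹ * y ^ (j : ℕ) * bb i) := by
      rw [Algebra.smul_def]; ring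
    rw [h11]
    apply Submodule.smul_mem
    exact Submodule.subset_span ⟨(i, j), rfl⟩

end Fin

end Pool.T44
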