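import Pool.Agent.H44.T1.Frm2

/-!
# T1, frame: a function whose only pole is a given place
-/

set_option autoImplicit false

namespace Pool.T44

open Polynomial nonZeroDivisors

section Ded

variable {S : Type} [CommRing S] [IsDomain S] [IsDedekindDomain S]

lemma vr_total (P : Ideal S) [P.IsPrime] (hP : P ≠ ⊥) (a b : S) :
    (∃ c d, d ∉ P ∧ a * d = b * c) ∨ (∃ c d, d ∉ P ∧ b * d = a * c) := by
  have h1 := IsLocalization.AtPrime.isDiscreteValuationRing_of_dedekind_domain S hP
    (Localization.AtPrime P)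
  have key : ∀ x y : S, algebraMap S (Localization.AtPrime P) x ∣
      algebraMap S (Localization.AtPrime P) y → ∃ c d, d ∉ P ∧ y * d = x * c := by
    intro x y hxy
    obtain ⟨z, hz⟩ := hxy
    obtain ⟨c, d, h2⟩ := IsLocalization.exists_mk'_eq P.primeCompl z
    refine ⟨c, d, d.2, ?_⟩
    have hinj : Function.Injective (algebraMap S (Localization.AtPrime P)) :=
      IsLocalization.injective (Localization.AtPrime P) P.primeCompl_le_nonZeroDivisors
    apply hinj
    rw [map_mul, map_mul, hz, ← h2, mul_assoc, IsLocalization.mk'_spec]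
  rcases ValuationRing.dvd_total (algebraMap S (Localization.AtPrime P) a)
    (algebraMap S (Localization.AtPrime P) b) with h | h
  · right; exact key a b h
  · left; exact key b a h

end Ded

section One

variable {F K : Type} [Field F] [Field K] [Algebra F K] [Algebra F[X] K] [Algebra (RatFunc F) K]
  [IsScalarTower F F[X] K] [IsScalarTower F[X] (RatFunc F) K]

lemma Sf_int {z : K} (hz : z ∈ Sf F K) : IsIntegral F[X] z := by
  have h1 := iInf_valuationSubring_superset (s := Set.range (algebraMap F[X] K))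
  have h2 : z ∈ (⨅ V : {V : ValuationSubring K // Set.range (algebraMap F[X] K) ⊆ V.toSubring},
      V.1.toSubring) := by
    rw [Subring.mem_iInf]
    rintro ⟨V, hV⟩
    apply hz V
    · intro a
      rw [← cst_pol]
      exact hV ⟨_, rfl⟩
    · exact hV ⟨_, rfl⟩
  rw [h1] at h2
  have h3 : IsIntegral (Subring.closure (Set.range (algebraMap F[X] K))) z := h2
  obtain ⟨p, hp, h0⟩ := h3
  have hcl : ∀ x ∈ Subring.closure (Set.range (algebraMap F[X] K)),
      x ∈ Set.range (algebraMap F[X] K) := by
    intro x hx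
    have : Subring.closure (Set.range (algebraMap F[X] K)) ≤ (algebraMap F[X] K).range :=
      Subring.closure_le.2 (by intro y hy; exact hy)
    exact this hx
  have h4 : p.map (Subring.subtype _) ∈ lifts (algebraMap F[X] K) := by
    rw [lifts_iff_coeff_lifts]
    intro n
    rw [coeff_map]
    exact hcl _ (p.coeff n).2
  obtain ⟨q, hq1, hq2, hq3⟩ := lifts_and_natDegree_eq_and_monic h4 (hp.map _)
  refine ⟨q, hq3, ?_⟩
  rw [eval₂_eq_eval_map, hq1, ← eval₂_eq_eval_map]
  exact h0

lemma triv {w : ValuationSubring K} (hw : Cst F w) : w.valuation.IsTrivialOn F :=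
  ⟨fun _ ha => val_cst hw ha⟩

lemma S_mem {w : ValuationSubring K} (hw : Cst F w) (hX : algebraMap F[X] K X ∈ w)
    (a : integralClosure F[X] K) : (a : K) ∈ w := int_mem hw hX a.2

/-- The prime of a valuation ring. -/
noncomputable def Pv {w : ValuationSubring K} (hw : Cst F w) (hX : algebraMap F[X] K X ∈ w) :
    Ideal (integralClosure F[X] K) where
  carrier := {a | w.valuation (a : K) < 1}
  add_mem' := by
    intro a b ha hb
    simp only [Set.mem_ofPred_eq, Subalgebra.coe_add] at *
    exact lt_of_le_of_lt (Valuation.map_add _ _ _) (max_lt ha hb)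
  zero_mem' := by simp
  smul_mem' := by
    intro c a ha
    simp only [Set.mem_ofPred_eq, smul_eq_mul, Subalgebra.coe_mul, map_mul] at *
    have h1 : w.valuation (c : K) ≤ 1 := (w.valuation_le_one_iff _).2 (S_mem hw hX c)
    calc w.valuation (c : K) * w.valuation (a : K) ≤ 1 * w.valuation (a : K) := by gcongr
      _ = w.valuation (a : K) := one_mul _
      _ < 1 := ha

lemma mem_Pv {w : ValuationSubring K} (hw : Cst F w) (hX : algebraMap F[X] K X ∈ w)
    (a : integralClosure F[X] K) : a ∈ Pv hw hX ↔ w.valuation (a : K) < 1 := Iff.rfl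

lemma not_Pv {w : ValuationSubring K} (hw : Cst F w) (hX : algebraMap F[X] K X ∈ w)
    {a : integralClosure F[X] K} (h : a ∉ Pv hw hX) : w.valuation (a : K) = 1 := by
  rw [mem_Pv, not_lt] at h
  exact le_antisymm ((w.valuation_le_one_iff _).2 (S_mem hw hX a)) h

instance Pv_prime {w : ValuationSubring K} (hw : Cst F w) (hX : algebraMap F[X] K X ∈ w) :
    (Pv hw hX).IsPrime := by
  refine ⟨?_, ?_⟩
  · rw [Ne, Ideal.eq_top_iff_one, mem_Pv]
    simp
  · intro a b hab
    by_contra hc
    push Not at hc
    have h1 := not_Pv hw hX hc.1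
    have h2 := not_Pv hw hX hc.2
    rw [mem_Pv] at hab
    simp only [Subalgebra.coe_mul, map_mul, h1, h2, mul_one, lt_irrefl] at hab

variable [FiniteDimensional (RatFunc F) K] [Algebra.IsSeparable (RatFunc F) K]

lemma frac (z : K) : ∃ a b : integralClosure F[X] K, b ≠ 0 ∧ z = (a : K) / (b : K) := by
  have := integralClosure.isFractionRing_of_finite_extension (A := F[X]) (RatFunc F) K
  obtain ⟨a, b, hb, h⟩ := IsFractionRing.div_surjective (A := integralClosure F[X] K) z
  exact ⟨a, b, nonZeroDivisors.ne_zero hb, h.symm⟩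

lemma Pv_ne {w : ValuationSubring K} (hw : Cst F w) (hX : algebraMap F[X] K X ∈ w)
    (ht : w ≠ ⊤) : Pv hw hX ≠ ⊥ := by
  obtain ⟨z, hz⟩ : ∃ z : K, z ∉ w := by
    by_contra hc
    push Not at hc
    exact ht (eq_top_iff.2 fun x _ => hc x)
  obtain ⟨a, b, hb, h⟩ := frac (F := F) z
  intro hbot
  have h1 : b ∉ Pv hw hX := by rw [hbot]; simpa using hb
  have h2 := not_Pv hw hX h1
  apply hz
  rw [← w.valuation_le_one_iff, h, map_div₀, h2, div_one]
  exact (w.valuation_le_one_iff _).2 (S_mem hw hX a)

lemma eq_of_Pv {v w : ValuationSubring K} (hv : Cst F v) (hw : Cst F w)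
    (hvX : algebraMap F[X] K X ∈ v) (hwX : algebraMap F[X] K X ∈ w) (ht : v ≠ ⊤)
    (h : Pv hv hvX = Pv hw hwX) : v = w := by
  have hded : IsDedekindDomain (integralClosure F[X] K) :=
    integralClosure.isDedekindDomain F[X] (RatFunc F) K
  ext z
  by_cases hz0 : z = 0
  · rw [hz0]; simp
  obtain ⟨a, b, hb, hz⟩ := frac (F := F) z
  have hbK : (b : K) ≠ 0 := by simpa using hb
  have haK : (a : K) ≠ 0 := by
    intro h0
    apply hz0
    rw [hz, h0, zero_div]
  have ha : a ≠ 0 := by
    intro h0; apply haK; rw [h0]; rfl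
  rcases vr_total (Pv hv hvX) (Pv_ne hv hvX ht) a b with ⟨c, d, hd, h1⟩ | ⟨c, d, hd, h1⟩
  · have hd' : d ∉ Pv hw hwX := by rwa [h] at hd
    have e1 := not_Pv hv hvX hd
    have e2 := not_Pv hw hwX hd'
    have hdK : (d : K) ≠ 0 := by
      intro h0
      rw [h0, map_zero] at e1
      exact zero_ne_one e1
    have e3 : (a : K) * d = b * c := by exact_mod_cast congrArg (fun x : integralClosure F[X] K => (x : K)) h1
    have e4 : z = (c : K) / d := by
      rw [hz, div_eq_div_iff hbK hdK, e3, mul_comm]
    have e5 : z ∈ v := by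
      rw [← v.valuation_le_one_iff, e4, map_div₀, e1, div_one]
      exact (v.valuation_le_one_iff _).2 (S_mem hv hvX c)
    have e6 : z ∈ w := by
      rw [← w.valuation_le_one_iff, e4, map_div₀, e2, div_one]
      exact (w.valuation_le_one_iff _).2 (S_mem hw hwX c)
    exact ⟨fun _ => e6, fun _ => e5⟩
  · have hd' : d ∉ Pv hw hwX := by rwa [h] at hd
    have e1 := not_Pv hv hvX hd
    have e2 := not_Pv hw hwX hd'
    have hdK : (d : K) ≠ 0 := by
      intro h0
      rw [h0, map_zero] at e1
      exact zero_ne_one e1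
    have e3 : (b : K) * d = a * c := by exact_mod_cast congrArg (fun x : integralClosure F[X] K => (x : K)) h1
    have hcK : (c : K) ≠ 0 := by
      intro h0
      rw [h0, mul_zero] at e3
      exact (mul_ne_zero hbK hdK) e3
    have e4 : z = (d : K) / c := by
      rw [hz, div_eq_div_iff hbK hcK, ← e3, mul_comm]
    rw [← v.valuation_le_one_iff, ← w.valuation_le_one_iff, e4, map_div₀, map_div₀, e1, e2]
    by_cases hc : c ∈ Pv hv hvX
    · have hc' : c ∈ Pv hw hwX := by rwa [h] at hc
      rw [mem_Pv] at hc hc'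
      have p1 : 0 < v.valuation (c : K) := by
        rw [zero_lt_iff]; exact (Valuation.ne_zero_iff _).2 hcK
      have p2 : 0 < w.valuation (c : K) := by
        rw [zero_lt_iff]; exact (Valuation.ne_zero_iff _).2 hcK
      constructor
      · intro h5
        exact absurd ((div_le_one₀ p1).1 h5) (not_le.2 hc)
      · intro h5
        exact absurd ((div_le_one₀ p2).1 h5) (not_le.2 hc')
    · have hc' : c ∉ Pv hw hwX := by rwa [h] at hc
      rw [not_Pv hv hvX hc, not_Pv hw hwX hc']
      simp

lemma ex_s {v : ValuationSubring K} (hv : Cst F v) (hvX : algebraMap F[X] K X ∈ v) (ht : v ≠ ⊤) :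
    ∃ s : K, s ∉ v ∧ ∀ w : ValuationSubring K, Cst F w → algebraMap F[X] K X ∈ w → w ≠ v →
      s ∈ w := by
  have hded : IsDedekindDomain (integralClosure F[X] K) :=
    integralClosure.isDedekindDomain F[X] (RatFunc F) K
  have hfr := integralClosure.isFractionRing_of_finite_extension (A := F[X]) (RatFunc F) K
  have hne := Pv_ne hv hvX ht
  obtain ⟨s, hs, hs1⟩ := FractionalIdeal.exists_notMem_one_of_ne_bot (K := K) hne
    (Pv_prime hv hvX).ne_top
  rw [FractionalIdeal.mem_inv_iff] at hs
  · have main : ∀ w : ValuationSubring K, Cst F w → algebraMap F[X] K X ∈ w → w ≠ v → s ∈ w := by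
      intro w hw hwX hwv
      have h1 : ¬ Pv hv hvX ≤ Pv hw hwX := by
        intro hle
        have hmax : (Pv hv hvX).IsMaximal := (Pv_prime hv hvX).isMaximal hne
        have h2 := hmax.eq_of_le (Pv_prime hw hwX).ne_top hle
        exact hwv (eq_of_Pv hv hw hvX hwX ht h2).symm
      rw [SetLike.not_le_iff_exists] at h1
      obtain ⟨p, hp, hp'⟩ := h1
      have h3 := hs (p : K) ⟨p, hp, rfl⟩
      rw [FractionalIdeal.mem_one_iff] at h3
      obtain ⟨q, hq⟩ := h3
      have h4 := not_Pv hw hwX hp'
      rw [← w.valuation_le_one_iff]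
      have h5 : w.valuation (s * (p : K)) ≤ 1 := by
        rw [← hq]
        exact (w.valuation_le_one_iff _).2 (S_mem hw hwX q)
      rwa [map_mul, h4, mul_one] at h5
    refine ⟨s, ?_, main⟩
    intro hsv
    apply hs1
    rw [FractionalIdeal.mem_one_iff]
    have h6 : IsIntegral F[X] s := by
      apply Sf_int
      intro w hw hwX
      by_cases hwv : w = v
      · rw [hwv]; exact hsv
      · exact main w hw hwX hwv
    exact ⟨⟨s, h6⟩, rfl⟩
  · exact FractionalIdeal.coeIdeal_ne_zero.2 hne

end One

end Pool.T44
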