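import Pool.Agent.H44.T1.Frm3

/-!
# T1, frame: a function whose only pole is a given place, conclusion
-/

set_option autoImplicit false

namespace Pool.T44

open Polynomial nonZeroDivisors

section One

variable {F K : Type} [Field F] [Field K] [Algebra F K] [Algebra F[X] K] [Algebra (RatFunc F) K]
  [IsScalarTower F F[X] K] [IsScalarTower F[X] (RatFunc F) K]
  [FiniteDimensional (RatFunc F) K] [Algebra.IsSeparable (RatFunc F) K]

lemma ex_r {v : ValuationSubring K} (hv : Cst F v) (hvX : algebraMap F[X] K X ∈ v) (ht : v ≠ ⊤) :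
    ∃ r : K, r ∉ v ∧ ∀ w : ValuationSubring K, Cst F w → w ≠ v → r ∈ w := by
  obtain ⟨s, hs, hsw⟩ := ex_s hv hvX ht
  obtain ⟨E, hE, hcov⟩ := cov (F := F) (K := K) inferInstance
  set W : Submodule F K := Sf F K ⊔ Mi F K with hW
  have hfin : Module.Finite F (K ⧸ W) := by
    apply Module.Finite.of_surjective (W.mkQ ∘ₗ E.subtype)
    intro z
    obtain ⟨z, rfl⟩ := Submodule.Quotient.mk_surjective W z
    have h1 : z ∈ W ⊔ E := by rw [hcov]; exact Submodule.mem_top
    obtain ⟨a, ha, e, he, h2⟩ := Submodule.mem_sup.1 h1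
    refine ⟨⟨e, he⟩, ?_⟩
    simp only [LinearMap.coe_comp, Submodule.coe_subtype, Function.comp_apply,
      Submodule.mkQ_apply]
    rw [Submodule.Quotient.eq, ← h2]
    have h3 : e - (a + e) = -a := by ring
    rw [h3]
    exact W.neg_mem ha
  obtain ⟨p, hp, hp0⟩ : ∃ p : F[X], p ≠ 0 ∧ aeval s (X * p) ∈ W := by
    by_contra hc
    push Not at hc
    set Φ : F[X] →ₗ[F] (K ⧸ W) :=
      W.mkQ ∘ₗ (aeval s).toLinearMap ∘ₗ (LinearMap.mulLeft F X) with hΦ
    have hinj : Function.Injective Φ := by
      rw [← LinearMap.ker_eq_bot, LinearMap.ker_eq_bot']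
      intro p hp
      by_contra hp0
      apply hc p hp0
      rw [hΦ] at hp
      simp only [LinearMap.coe_comp, Function.comp_apply, LinearMap.mulLeft_apply,
        AlgHom.toLinearMap_apply, Submodule.mkQ_apply] at hp
      exact (Submodule.Quotient.mk_eq_zero W).1 hp
    exact Polynomial.not_finite (R := F) (Module.Finite.of_injective Φ hinj)
  obtain ⟨a, ha, b, hb, h1⟩ := Submodule.mem_sup.1 hp0
  refine ⟨b, ?_, ?_⟩
  · intro hbv
    have h2 : aeval s (X * p) ∈ v := by
      rw [← h1]
      exact add_mem (ha v hv hvX) hbv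
    have := triv (F := F) hv
    have hs' : 1 < v.valuation s := by
      rw [← ValuationSubring.valuation_le_one_iff] at hs
      exact not_le.1 hs
    have h3 := Polynomial.valuation_aeval_eq_valuation_X_pow_natDegree_of_one_lt_valuation_X
      (v := v.valuation) s hs' (mul_ne_zero X_ne_zero hp)
    rw [← v.valuation_le_one_iff, h3] at h2
    have h4 : 1 < v.valuation s ^ (X * p).natDegree := by
      apply one_lt_pow₀ hs'
      rw [natDegree_X_mul hp]
      exact Nat.succ_ne_zero _
    exact absurd h2 (not_le.2 h4)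
  · intro w hw hwv
    by_cases hwX : algebraMap F[X] K X ∈ w
    · have h2 : b = aeval s (X * p) - a := by rw [← h1]; ring
      rw [h2]
      apply sub_mem _ (ha w hw hwX)
      have hsw' := hsw w hw hwX hwv
      rw [aeval_eq_sum_range]
      apply sum_mem
      intro i _
      exact smul_mem hw _ (pow_mem hsw' i)
    · exact hb w hw hwX

end One

end Pool.T44
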