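import Mathlib

/-!
# T1, frame: a separating element in a given set of generators
-/

set_option autoImplicit false

namespace Pool.T44

open IntermediateField

section Sep

variable {F K : Type} [Field F] [Field K] [Algebra F K]

lemma fin_of_basis [Algebra.EssFiniteType F K] {s : Finset K}
    (hs : IsTranscendenceBasis F ((↑) : s → K)) :
    Module.Finite (adjoin F (s : Set K)) K := by
  have h1 : Algebra.EssFiniteType (adjoin F (s : Set K)) K := .of_comp F _ _
  have h2 : Algebra.IsAlgebraic (adjoin F (s : Set K)) K := by
    have h3 := hs.isAlgebraic_field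
    have h4 : Set.range ((↑) : s → K) = (s : Set K) := by
      ext x; simp
    rw [h4] at h3
    exact h3
  exact Algebra.finite_of_essFiniteType_of_isAlgebraic

/-- MacLane: a generating set of a finitely generated extension of a perfect field contains a
separating transcendence basis. -/
theorem sep_sub (p : ℕ) (hp : p.Prime) [CharP F p] [PerfectField F]
    [Algebra.EssFiniteType F K] (T : Set K) (hT : adjoin F T = ⊤) :
    ∃ s : Finset K, (s : Set K) ⊆ T ∧ IsTranscendenceBasis F ((↑) : s → K) ∧
      Algebra.IsSeparable (adjoin F (s : Set K)) K := by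
  have : ExpChar F p := .prime hp
  have : CharP K p := .of_ringHom_of_ne_zero (algebraMap F K) p hp.ne_zero
  have : ExpChar K p := .prime hp
  have H : ∀ s : Finset K, LinearIndepOn F _root_.id (s : Set K) →
      LinearIndepOn F (· ^ p) (s : Set K) := by
    intro s hs
    apply hs.map_of_injective_injective (frobeniusEquiv F p).symm
      (frobenius K p).toAddMonoidHom <;>
      simp [frobenius, Algebra.smul_def, mul_pow, ← map_pow, frobeniusEquiv_symm_pow]
  set d : Finset K → ℕ := fun s => Field.finInsepDegree (adjoin F (s : Set K)) K with hd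
  set Q : Set (Finset K) := {s | (s : Set K) ⊆ T ∧ IsTranscendenceBasis F ((↑) : s → K)} with hQ
  have hne : Q.Nonempty := by
    have hal : Algebra.IsAlgebraic (Algebra.adjoin F T) K := by
      rw [← isAlgebraic_adjoin_iff_top, hT, Algebra.isAlgebraic_iff_isIntegral]
      exact Algebra.isIntegral_of_surjective topEquiv.surjective
    obtain ⟨t, hts, ht⟩ := exists_isTranscendenceBasis_subset (R := F) T
    obtain ⟨s0, hs0⟩ := exists_isTranscendenceBasis_and_isSeparable_of_perfectField F K
    have hfin : t.Finite := by
      have h1 := ht.cardinalMk_eq hs0.1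
      have h2 : Cardinal.mk t < Cardinal.aleph0 := by
        rw [h1]
        exact Cardinal.mk_lt_aleph0
      exact Cardinal.lt_aleph0_iff_set_finite.1 h2
    lift t to Finset K using hfin
    exact ⟨t, hts, ht⟩
  set s := Function.argminOn d Q hne with hs
  have hsQ : s ∈ Q := Function.argminOn_mem d Q hne
  refine ⟨s, hsQ.1, hsQ.2, ?_⟩
  have hfs : Module.Finite (adjoin F (s : Set K)) K := fin_of_basis hsQ.2
  by_contra hns
  have hE : separableClosure (adjoin F (s : Set K)) K ≠ ⊤ := by
    intro h
    exact hns ((separableClosure.eq_top_iff _ _).1 h)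
  obtain ⟨n, hnT, hn⟩ : ∃ n ∈ T, n ∉ separableClosure (adjoin F (s : Set K)) K := by
    by_contra hc
    push Not at hc
    apply hE
    rw [← (restrictScalars_injective F).eq_iff, restrictScalars_top, eq_top_iff, ← hT,
      adjoin_le_iff]
    intro x hx
    exact hc x hx
  have hns' : n ∉ (s : Set K) := fun h =>
    hn (le_restrictScalars_separableClosure _ (subset_adjoin _ _ h))
  obtain ⟨i, hi₁, hi₂⟩ := exists_isTranscendenceBasis_and_isSeparable_of_linearIndepOn_pow'
    p hp (a := id) H (s : Set K) n hsQ.2 hns'
  rw [Set.image_id] at hi₂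
  simp only [id] at hi₁ hi₂
  have hfin : (insert n (s : Set K) \ {i}).Finite :=
    (s.finite_toSet.insert n).subset Set.diff_subset
  obtain ⟨t, ht⟩ : ∃ t : Finset K, (t : Set K) = insert n (s : Set K) \ {i} :=
    ⟨hfin.toFinset, by simp⟩
  rw [← ht] at hi₁ hi₂
  have hlt : (separableClosure (adjoin F (s : Set K)) K).restrictScalars F <
      (separableClosure (adjoin F (t : Set K)) K).restrictScalars F := by
    refine SetLike.lt_iff_le_and_exists.mpr ⟨?_, n, ?_, hn⟩
    · rw [separableClosure_le_separableClosure_iff, adjoin_le_iff]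
      intro x hx
      obtain rfl | ne := eq_or_ne x i
      · exact hi₂
      · exact le_restrictScalars_separableClosure _ (subset_adjoin _ _ (ht ▸ ⟨.inr hx, ne⟩))
    · obtain rfl | ne := eq_or_ne n i
      · exact hi₂
      · exact le_restrictScalars_separableClosure _ (subset_adjoin _ _ (ht ▸ ⟨.inl rfl, ne⟩))
  have htT : (t : Set K) ⊆ T := by
    intro x hx
    rw [ht] at hx
    rcases hx.1 with h | h
    · rw [h]; exact hnT
    · exact hsQ.1 h
  have htQ : t ∈ Q := ⟨htT, hi₁⟩
  have : Module.Finite ((separableClosure (adjoin F (s : Set K)) K).restrictScalars F) K :=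
    inferInstanceAs <| Module.Finite (separableClosure (adjoin F (s : Set K)) K) K
  exact Function.not_lt_argminOn d Q htQ (by apply finrank_lt_of_gt hlt)

end Sep

end Pool.T44
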