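import Pool.Agent.H44.T1.Frm4
import Pool.Agent.H44.T1.Sep

/-!
# T1, frame: a separating element with a single pole
-/

set_option autoImplicit false

namespace Pool.T44

open Polynomial IntermediateField

section Alg

variable {F K : Type} [Field F] [Field K] [Algebra F K]

/-- `K` as an extension of `F(t)`, `t` an element transcendental over `F`. -/
@[reducible] noncomputable def algRat (t : K) (ht : Transcendental F t) : Algebra (RatFunc F) K :=
  ((algebraMap F⟮t⟯ K).comp
    (RatFunc.algEquivOfTranscendental t ht : RatFunc F →ₐ[F] F⟮t⟯).toRingHom).toAlgebra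

lemma algRat_X (t : K) (ht : Transcendental F t) :
    @algebraMap (RatFunc F) K _ _ (algRat t ht) RatFunc.X = t := by
  change ((RatFunc.algEquivOfTranscendental t ht RatFunc.X : F⟮t⟯) : K) = t
  exact RatFunc.algEquivOfTranscendental_X t ht

lemma algRat_pol (t : K) (ht : Transcendental F t) (p : F[X]) :
    @algebraMap (RatFunc F) K _ _ (algRat t ht) (algebraMap F[X] (RatFunc F) p) = aeval t p := by
  change ((RatFunc.algEquivOfTranscendental t ht (algebraMap F[X] (RatFunc F) p) : F⟮t⟯) : K) = _
  rw [RatFunc.algEquivOfTranscendental_algebraMap]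
  have h : ((aeval (AdjoinSimple.gen F t) p : F⟮t⟯) : K) =
      aeval ((AdjoinSimple.gen F t : F⟮t⟯) : K) p := by
    rw [← IntermediateField.coe_val, ← aeval_algHom_apply]
  rw [h, AdjoinSimple.coe_gen]

lemma algRat_fin (t : K) (ht : Transcendental F t) [FiniteDimensional F⟮t⟯ K] :
    @FiniteDimensional (RatFunc F) K _ _ (algRat t ht).toModule := by
  letI := algRat t ht
  exact Module.Finite.of_equiv_equiv
    (RatFunc.algEquivOfTranscendental t ht).symm.toRingEquiv (RingEquiv.refl K) (by
      ext z
      change ((RatFunc.algEquivOfTranscendental t ht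
        ((RatFunc.algEquivOfTranscendental t ht).symm z) : F⟮t⟯) : K) = (z : K)
      rw [AlgEquiv.apply_symm_apply])

lemma algRat_sep (t : K) (ht : Transcendental F t) [Algebra.IsSeparable F⟮t⟯ K] :
    @Algebra.IsSeparable (RatFunc F) K _ _ (algRat t ht) := by
  letI := algRat t ht
  exact Algebra.IsSeparable.of_equiv_equiv
    (RatFunc.algEquivOfTranscendental t ht).symm.toRingEquiv (RingEquiv.refl K) (by
      ext z
      change ((RatFunc.algEquivOfTranscendental t ht
        ((RatFunc.algEquivOfTranscendental t ht).symm z) : F⟮t⟯) : K) = (z : K)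
      rw [AlgEquiv.apply_symm_apply])

/-- A function whose only pole is `v`, from a separating element contained in `v`. -/
lemma ex_r' (y : K) (hy : Transcendental F y) [FiniteDimensional F⟮y⟯ K]
    [Algebra.IsSeparable F⟮y⟯ K] {v : ValuationSubring K} (hv : Cst F v) (hvy : y ∈ v)
    (ht : v ≠ ⊤) : ∃ r : K, r ∉ v ∧ ∀ w : ValuationSubring K, Cst F w → w ≠ v → r ∈ w := by
  letI := algRat y hy
  letI : Algebra F[X] K := (aeval y : F[X] →ₐ[F] K).toRingHom.toAlgebra
  haveI : IsScalarTower F F[X] K := IsScalarTower.of_algebraMap_eq fun a => by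
    change _ = aeval y (algebraMap F F[X] a)
    rw [Polynomial.algebraMap_eq, aeval_C]
  haveI : IsScalarTower F[X] (RatFunc F) K := IsScalarTower.of_algebraMap_eq fun p => by
    change aeval y p = _
    rw [algRat_pol]
  haveI := algRat_fin y hy
  haveI := algRat_sep y hy
  apply ex_r hv _ ht
  change aeval y X ∈ v
  rw [aeval_X]
  exact hvy

lemma cst_all [Finite F] (w : ValuationSubring K) : Cst F w := by
  intro a
  by_cases ha : a = 0
  · rw [ha, map_zero]; exact zero_mem w
  have := Fintype.ofFinite F
  have h1 : (algebraMap F K a) ^ (Fintype.card F - 1) = 1 := by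
    rw [← map_pow, FiniteField.pow_card_sub_one_eq_one a ha, map_one]
  have h2 : IsIntegral w (algebraMap F K a) := by
    apply IsIntegral.of_pow (n := Fintype.card F - 1)
    · have := Fintype.one_lt_card (α := F)
      omega
    · rw [h1]; exact isIntegral_one
  obtain ⟨y, hy⟩ := IsIntegrallyClosed.isIntegral_iff.1 h2
  rw [← hy]
  exact y.2

lemma alg_of_all [Finite F] {z : K} (hz : ∀ w : ValuationSubring K, z ∈ w) :
    IsAlgebraic F z := by
  have h1 := iInf_valuationSubring_superset (s := Set.range (algebraMap F K))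
  have h2 : z ∈ (⨅ V : {V : ValuationSubring K // Set.range (algebraMap F K) ⊆ V.toSubring},
      V.1.toSubring) := by
    rw [Subring.mem_iInf]
    rintro ⟨V, hV⟩
    exact hz V
  rw [h1] at h2
  have h3 : IsIntegral (Subring.closure (Set.range (algebraMap F K))) z := h2
  obtain ⟨p, hp, h0⟩ := h3
  have hcl : ∀ x ∈ Subring.closure (Set.range (algebraMap F K)),
      x ∈ Set.range (algebraMap F K) := by
    intro x hx
    have : Subring.closure (Set.range (algebraMap F K)) ≤ (algebraMap F K).range :=
      Subring.closure_le.2 (by intro y hy; exact hy)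
    exact this hx
  have h4 : p.map (Subring.subtype _) ∈ lifts (algebraMap F K) := by
    rw [lifts_iff_coeff_lifts]
    intro n
    rw [coeff_map]
    exact hcl _ (p.coeff n).2
  obtain ⟨q, hq1, hq2, hq3⟩ := lifts_and_natDegree_eq_and_monic h4 (hp.map _)
  apply IsIntegral.isAlgebraic
  refine ⟨q, hq3, ?_⟩
  rw [eval₂_eq_eval_map, hq1, ← eval₂_eq_eval_map]
  exact h0

/-- A transcendence basis of an extension of transcendence degree one consists of one element. -/
lemma basis_one (htr : Algebra.trdeg F K = 1) {s : Finset K}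
    (hs : IsTranscendenceBasis F ((↑) : s → K)) : ∃ x : K, s = {x} ∧ Transcendental F x := by
  have h1 : Cardinal.mk s = 1 := by rw [hs.cardinalMk_eq_trdeg, htr]
  have h2 : s.card = 1 := by
    have h3 : Cardinal.mk s = (s.card : Cardinal) := Cardinal.mk_coe_finset
    rw [h1] at h3
    exact_mod_cast h3.symm
  obtain ⟨x, hx⟩ := Finset.card_eq_one.1 h2
  refine ⟨x, hx, ?_⟩
  subst hx
  exact hs.1.transcendental ⟨x, by simp⟩

end Alg

end Pool.T44
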