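import Pool.Agent.H29.T1.ZS
import Pool.Agent.H81.TOW.IRS

/-!
# T1, row ZIRS: scaling of the roots and irreducibility modulo a prime
-/

set_option autoImplicit false

namespace Pool.T1

open Polynomial IsDedekindDomain

theorem zirs : ZIRSStmt := by
  intro R _ _ P d f hf _
  have hm : P.asIdeal.IsMaximal := P.isMaximal
  letI : Field (R ⧸ P.asIdeal) := Ideal.Quotient.field P.asIdeal
  have e : md P.asIdeal (f.scaleRoots d)
      = (md P.asIdeal f).scaleRoots (Ideal.Quotient.mk P.asIdeal d) := by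
    refine map_scaleRoots f d _ ?_
    rw [hf.leadingCoeff, map_one]
    exact one_ne_zero
  rw [e]
  refine ⟨fun h => Pool.TOW.UD.irr_of_scaleRoots (hf.map _) _ h, fun hd h =>
    Pool.TOW.UD.irr_scaleRoots (hf.map _) ?_ h⟩
  rw [Ne, Ideal.Quotient.eq_zero_iff_mem]
  exact hd

end Pool.T1
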